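import Pool.Agent.Y34.EL.Stm

/-!
Project EL, part LINE: two opposite rays are asymptotic to the two ends of a line.
-/

set_option autoImplicit false

universe u v

open Metric Set Filter Topology
open Pool.Agent.TH60.FP Pool.Agent.Y34.HB Pool.Agent.Y34.EL

namespace Pool.Agent.Y794.EL.Line

variable {X : Type u} [MetricSpace X]

lemma on_nonneg {m p : X} {s : ℝ} {y : X} (hy : On m p s y) : 0 ≤ s := hy.1 ▸ dist_nonneg

lemma on_le {m p : X} {s : ℝ} {y : X} (hy : On m p s y) : s ≤ dist m p := by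
  have h1 := dist_nonneg (x := y) (y := p)
  rw [hy.2] at h1
  linarith

/-- Two points of a segment. -/
lemma on_dist [ProperSpace X] (hA : S_STEW.{u}) (hX : CN X) {m p : X} {s t : ℝ} {y z : X}
    (hy : On m p s y) (hz : On m p t z) : dist y z = |s - t| := by
  have hs := on_nonneg hy
  have hsD := on_le hy
  have ht := on_nonneg hz
  have htD := on_le hz
  apply le_antisymm
  · rcases (dist_nonneg (x := m) (y := p)).eq_or_lt with hD | hD
    · have h1 : s = 0 := by linarith
      have h2 : t = 0 := by linarith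
      have h3 : m = y := dist_eq_zero.1 (by rw [hy.1, h1])
      have h4 : m = z := dist_eq_zero.1 (by rw [hz.1, h2])
      rw [← h3, ← h4, dist_self]
      exact abs_nonneg _
    · have h1 := (hA X hX).2.2 m p t z hz y
      rw [dist_comm y m, hy.1, hy.2] at h1
      have h2 : dist m p * dist y z ^ 2 ≤ dist m p * (s - t) ^ 2 := by
        refine h1.trans (le_of_eq ?_)
        ring
      have h3 : dist y z ^ 2 ≤ (s - t) ^ 2 := le_of_mul_le_mul_left h2 hD
      have h4 := sq_le_sq.1 h3
      rwa [abs_of_nonneg dist_nonneg] at h4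
  · have h1 := dist_triangle m y z
    have h2 := dist_triangle m z y
    rw [dist_comm z y] at h2
    rw [hy.1, hz.1] at h1 h2
    rw [abs_le]
    constructor <;> linarith

/-- Points of the segments from a point near `o` to a point of the ray. -/
lemma near [ProperSpace X] (hB : S_CMP.{u}) (hX : CN X) {o m : X} {c : ℝ → X} (hc : Ray o c)
    {K : ℝ} (hm : dist o m ≤ K) {n : ℕ} {t : ℝ} (hn : K < n) {y : X} (hy : On m (c n) t y) :
    dist y (c t) ≤ 2 * K := by
  have ht := on_nonneg hy
  have htd := on_le hy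
  have hn0 : (0 : ℝ) ≤ n := Nat.cast_nonneg n
  have hon : dist o (c n) = n := by
    have h1 := hc.2 0 n le_rfl hn0
    rw [hc.1, zero_sub, abs_neg, abs_of_nonneg hn0] at h1
    exact h1
  have hd1 := dist_triangle o m (c n)
  have hd2 := dist_triangle m o (c n)
  rw [dist_comm m o] at hd2
  rw [hon] at hd1 hd2
  have hd : 0 < dist m (c n) := by linarith
  obtain ⟨l, hl⟩ : ∃ l, l = t / dist m (c n) := ⟨_, rfl⟩
  have hld : l * dist m (c n) = t := by rw [hl, div_mul_cancel₀ _ hd.ne']
  have hl0 : 0 ≤ l := by rw [hl]; positivity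
  have hl1 : l ≤ 1 := by rw [hl, div_le_one hd]; exact htd
  have hln : 0 ≤ l * n := mul_nonneg hl0 hn0
  have hln1 : l * n ≤ n := by
    have := mul_le_mul_of_nonneg_right hl1 hn0
    linarith
  have h1 : On m (c n) (l * dist m (c n)) y := by rw [hld]; exact hy
  have h2 : On o (c n) (l * dist o (c n)) (c (l * n)) := by
    rw [hon]
    refine ⟨?_, ?_⟩
    · have h3 := hc.2 0 (l * n) le_rfl hln
      rw [hc.1, zero_sub, abs_neg, abs_of_nonneg hln] at h3
      exact h3
    · rw [hc.2 _ _ hln hn0, abs_sub_comm, abs_of_nonneg (by linarith), hon]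
  have h3 := (hB X hX).2 m (c n) o (c n) l y (c (l * n)) h1 h2 hl0 hl1
  rw [dist_self, mul_zero, add_zero, dist_comm m o] at h3
  have h4 : (1 - l) * dist o m ≤ K := by
    have h5 : (1 - l) * dist o m ≤ 1 * dist o m :=
      mul_le_mul_of_nonneg_right (by linarith) dist_nonneg
    linarith
  have h5 : dist (c (l * n)) (c t) ≤ K := by
    rw [hc.2 _ _ hln ht, ← hld, ← mul_sub, abs_mul, abs_of_nonneg hl0]
    have h6 : |(n : ℝ) - dist m (c n)| ≤ K := by
      rw [abs_le]
      constructor <;> linarith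
    have h7 := mul_le_mul_of_nonneg_right hl1 (abs_nonneg ((n : ℝ) - dist m (c n)))
    linarith
  have h6 := dist_triangle y (c (l * n)) (c t)
  linarith

theorem t_LINE (hA : S_STEW.{u}) (hB : S_CMP.{u}) : S_LINE.{u} := by
  intro X _ _ hX o c c' hc hc' ⟨K, hK⟩
  have hm : ∀ n : ℕ, ∃ m, dist (c n) m + dist m (c' n) = dist (c n) (c' n) ∧ dist o m ≤ K :=
    fun n => hK n (Nat.cast_nonneg n)
  choose m hm1 hm2 using hm
  have hK0 : 0 ≤ K := dist_nonneg.trans (hm2 0)
  have hray : ∀ (c : ℝ → X), Ray o c → ∀ n : ℕ, (n : ℝ) - K ≤ dist (m n) (c n) := by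
    intro c hc n
    have hn0 : (0 : ℝ) ≤ n := Nat.cast_nonneg n
    have h1 := hc.2 0 n le_rfl hn0
    rw [hc.1, zero_sub, abs_neg, abs_of_nonneg hn0] at h1
    have h2 := dist_triangle o (m n) (c n)
    have h3 := hm2 n
    linarith
  have hex : ∀ (n : ℕ) (t : ℝ), ∃ y, (0 ≤ t → t ≤ dist (m n) (c n) → On (m n) (c n) t y) ∧
      (t ≤ 0 → -t ≤ dist (m n) (c' n) → On (m n) (c' n) (-t) y) ∧ dist (m n) y ≤ |t| := by
    intro n t
    rcases lt_trichotomy t 0 with ht | ht | ht
    · by_cases h1 : -t ≤ dist (m n) (c' n)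
      · obtain ⟨y, hy⟩ := (hA X hX).1 (m n) (c' n) (-t) (by linarith) h1
        exact ⟨y, fun h => absurd h (not_le.2 ht), fun _ _ => hy, by rw [hy.1, abs_of_neg ht]⟩
      · exact ⟨m n, fun h => absurd h (not_le.2 ht), fun _ h => absurd h h1,
          by rw [dist_self]; exact abs_nonneg _⟩
    · refine ⟨m n, fun _ _ => ?_, fun _ _ => ?_, by rw [dist_self]; exact abs_nonneg _⟩
      · rw [ht]
        exact ⟨dist_self _, by rw [sub_zero]⟩
      · rw [ht, neg_zero]
        exact ⟨dist_self _, by rw [sub_zero]⟩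
    · by_cases h1 : t ≤ dist (m n) (c n)
      · obtain ⟨y, hy⟩ := (hA X hX).1 (m n) (c n) t ht.le h1
        exact ⟨y, fun _ _ => hy, fun h => absurd h (not_le.2 ht), by rw [hy.1, abs_of_pos ht]⟩
      · exact ⟨m n, fun _ h => absurd h h1, fun h => absurd h (not_le.2 ht),
          by rw [dist_self]; exact abs_nonneg _⟩
  choose σ hσ1 hσ2 hσ3 using hex
  -- the points are on one geodesic
  have hcross : ∀ (n : ℕ) (s t : ℝ), s ≤ 0 → 0 ≤ t → -s ≤ n - K → t ≤ n - K →
      dist (σ n s) (σ n t) = t - s := by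
    intro n s t hs ht hsn htn
    have h1 := hσ2 n s hs (hsn.trans (hray c' hc' n))
    have h2 := hσ1 n t ht (htn.trans (hray c hc n))
    have h3 := hm1 n
    have h4 := dist_triangle4 (c' n) (σ n s) (σ n t) (c n)
    have h5 := dist_triangle_left (σ n s) (σ n t) (m n)
    rw [h1.1, h2.1] at h5
    rw [h2.2, dist_comm (c' n) (σ n s), h1.2, dist_comm (c' n) (c n)] at h4
    rw [dist_comm (c n) (m n)] at h3
    apply le_antisymm <;> linarith
  have hiso : ∀ (n : ℕ) (s t : ℝ), |s| ≤ n - K → |t| ≤ n - K →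
      dist (σ n s) (σ n t) = dist s t := by
    intro n s t hs ht
    rw [abs_le] at hs ht
    rw [Real.dist_eq]
    rcases le_total 0 s with h1 | h1 <;> rcases le_total 0 t with h2 | h2
    · exact on_dist hA hX (hσ1 n s h1 (hs.2.trans (hray c hc n)))
        (hσ1 n t h2 (ht.2.trans (hray c hc n)))
    · rw [dist_comm, hcross n t s h2 h1 (by linarith) hs.2, abs_of_nonneg (by linarith)]
    · rw [hcross n s t h1 h2 (by linarith) ht.2, abs_of_nonpos (by linarith)]
      ring
    · have h3 := on_dist hA hX (hσ2 n s h1 ((by linarith : -s ≤ n - K).trans (hray c' hc' n)))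
        (hσ2 n t h2 ((by linarith : -t ≤ n - K).trans (hray c' hc' n)))
      rw [h3, ← abs_neg]
      congr 1
      ring
  -- the limit
  have hlim : ∀ t : ℝ, ∃ x : X, Tendsto (fun n => σ n t) (hyperfilter ℕ : Filter ℕ) (𝓝 x) := by
    intro t
    have hcp : IsCompact (closedBall o (K + |t|)) := isCompact_closedBall _ _
    have hmem : ∀ n, σ n t ∈ closedBall o (K + |t|) := by
      intro n
      rw [mem_closedBall, dist_comm]
      have h1 := dist_triangle o (m n) (σ n t)
      have h2 := hσ3 n t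
      have h3 := hm2 n
      linarith
    obtain ⟨x, -, hx⟩ := hcp.ultrafilter_le_nhds ((hyperfilter ℕ).map (fun n => σ n t)) (by
      rw [le_principal_iff]
      show (fun n => σ n t) ⁻¹' (closedBall o (K + |t|)) ∈ hyperfilter ℕ
      exact mem_of_superset univ_mem fun n _ => hmem n)
    exact ⟨x, hx⟩
  choose τ hτ using hlim
  have hev : ∀ r : ℝ, ∀ᶠ n : ℕ in (hyperfilter ℕ : Filter ℕ), r < (n : ℝ) := by
    intro r
    have h1 : ∀ᶠ n : ℕ in atTop, r < (n : ℝ) :=
      tendsto_natCast_atTop_atTop.eventually_gt_atTop r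
    exact Nat.hyperfilter_le_atTop h1
  have hτi : Isometry τ := by
    refine Isometry.of_dist_eq fun s t => ?_
    have h1 : Tendsto (fun n => dist (σ n s) (σ n t)) (hyperfilter ℕ : Filter ℕ)
        (𝓝 (dist (τ s) (τ t))) := (hτ s).dist (hτ t)
    have h2 : (fun n => dist (σ n s) (σ n t)) =ᶠ[(hyperfilter ℕ : Filter ℕ)]
        fun _ => dist s t := by
      filter_upwards [hev (|s| + |t| + K)] with n hn
      have h3 := abs_nonneg s
      have h4 := abs_nonneg t
      exact hiso n s t (by linarith) (by linarith)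
    exact tendsto_nhds_unique (h1.congr' h2) tendsto_const_nhds
  refine ⟨τ, 2 * K, hτi, fun t ht => ⟨?_, ?_⟩⟩
  · refine le_of_tendsto ((hτ t).dist tendsto_const_nhds) ?_
    filter_upwards [hev (t + K)] with n hn
    exact near hB hX hc (hm2 n) (by linarith) (hσ1 n t ht (by
      have := hray c hc n
      linarith))
  · refine le_of_tendsto ((hτ (-t)).dist tendsto_const_nhds) ?_
    filter_upwards [hev (t + K)] with n hn
    have h1 := hσ2 n (-t) (by linarith) (by
      have := hray c' hc' n
      rw [neg_neg]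
      linarith)
    rw [neg_neg] at h1
    exact near hB hX hc' (hm2 n) (by linarith) h1

end Pool.Agent.Y794.EL.Line
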